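import Pool.Agent.Helper55.FR.GoalsA

set_option autoImplicit false

/-!
# FR-LOCN: a local barrier gives a local structure
-/

namespace Pool.Agent.Helper24.FR

open Finset Pool.Agent.Helper55.FR

section

variable {V : Type} [Fintype V] [DecidableEq V]

theorem card_pre (n : Equiv.Perm V) (S : Finset V) :
    (univ.filter fun x => n x ∈ S).card = S.card := by
  have h : (univ.filter fun x => n x ∈ S) = S.image n.symm := by
    ext x
    simp only [mem_filter, mem_univ, true_and, mem_image]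
    constructor
    · intro hx
      exact ⟨n x, hx, by simp⟩
    · rintro ⟨y, hy, rfl⟩
      simpa using hy
  rw [h, card_image_of_injective _ n.symm.injective]

theorem cons (n : Equiv.Perm V) (S : Finset V) :
    (univ.filter fun x => x ∉ S ∧ n x ∈ S).card = dF n S := by
  have h1 : (univ.filter fun x => n x ∈ S).card =
      (univ.filter fun x => x ∉ S ∧ n x ∈ S).card + (S.filter fun x => n x ∈ S).card := by
    rw [← card_union_of_disjoint]
    · congr 1
      ext x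
      simp only [mem_filter, mem_univ, true_and, mem_union]
      tauto
    · rw [disjoint_left]
      intro x hx hx'
      simp only [mem_filter, mem_univ, true_and] at hx hx'
      exact hx.1 hx'.1
  have h2 : S.card = (S.filter fun x => n x ∈ S).card + dF n S := by
    unfold dF
    exact (card_filter_add_card_filter_not (s := S) (fun x => n x ∈ S)).symm
  have h3 := card_pre n S
  omega

theorem two_dF (n : Equiv.Perm V) (S : Finset V) (f : V → Lab)
    (hS : ∀ x, x ∈ S ↔ (f x = Lab.T ∨ f x = Lab.I)) : 2 * dF n S ≤ (Spc n f).card := by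
  have h1 := cons n S
  have h2 : 2 * dF n S = (univ.filter fun x => x ∉ S ∧ n x ∈ S).card +
      (S.filter fun x => n x ∉ S).card := by
    rw [h1]
    unfold dF
    ring
  rw [h2, ← card_union_of_disjoint]
  · apply card_le_card
    intro x hx
    simp only [mem_union, mem_filter, mem_univ, true_and, Spc, hS] at hx ⊢
    revert hx
    cases f x <;> cases f (n x) <;> simp [spc]
  · rw [disjoint_left]
    intro x hx hx'
    simp only [mem_filter, mem_univ, true_and] at hx hx'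
    exact hx.1 hx'.1

end

theorem locn (hidf : IdfStmt) (hskf : SkfStmt) (hidm : IdmStmt) (hcut : CutStmt) (hfit : FitStmt) :
    LocnStmt := by
  intro V _ _ n m h g B T I Q hc h0 h1 hg hexp hB hloc
  have hpre := hloc.pre
  obtain ⟨f, hf, hF⟩ := hcut V n m B g T I Q hpre
  obtain ⟨hadm, hdis⟩ := hfit V n m B g T I Q f hc hB hpre hf
  have e1 := hidf V n m B g T I Q f hpre hf
  have e2 := hskf V n m B g T I Q f hpre hf
  have e3 := hidm V n m B g T I Q hc.mm hpre
  have e4 := hloc.sur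
  have hsm := hloc.small
  have hK1 : ∀ K ∈ Q, h * (K.card : ℝ) ≤ ((2 * dF n K : ℕ) : ℝ) + ((dM m K : ℕ) : ℝ) := by
    intro K hK
    have := hexp K (hsm K hK)
    push_cast
    exact this
  have hK2 : ∀ K ∈ Q, h * (g : ℝ) ≤ h * (K.card : ℝ) := by
    intro K hK
    have : (g : ℝ) ≤ (K.card : ℝ) := by exact_mod_cast hpre.big K hK
    exact mul_le_mul_of_nonneg_left this h0.le
  have hs1 : ∑ K ∈ Q, h * (K.card : ℝ) ≤ ((∑ K ∈ Q, 2 * dF n K : ℕ) : ℝ) +
      ((∑ K ∈ Q, dM m K : ℕ) : ℝ) := by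
    push_cast
    rw [← Finset.sum_add_distrib]
    apply Finset.sum_le_sum
    intro K hK
    have := hK1 K hK
    push_cast at this
    exact this
  have hs2 : (Q.card : ℝ) * (h * (g : ℝ)) ≤ ∑ K ∈ Q, h * (K.card : ℝ) := by
    have := Finset.sum_le_sum hK2
    rw [Finset.sum_const, nsmul_eq_mul] at this
    exact this
  -- the set `T ∪ I`
  have hSl : ∀ x, x ∈ T ∪ I ↔ (f x = Lab.T ∨ f x = Lab.I) := by
    intro x
    rw [mem_union, hf.fT, hf.fI]
  have hScard : (T ∪ I).card = T.card + I.card := card_union_of_disjoint hpre.tI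
  have hS1 : h * ((T ∪ I).card : ℝ) ≤ ((2 * dF n (T ∪ I) : ℕ) : ℝ) + ((dM m (T ∪ I) : ℕ) : ℝ) := by
    have := hexp (T ∪ I) (by rw [hScard]; exact hloc.half)
    push_cast
    exact this
  have hS2 := two_dF n (T ∪ I) f hSl
  have hS3 : dM m (T ∪ I) ≤ ∑ K ∈ Q, dM m K +
      ((T ∪ I ∪ Q.biUnion id).filter fun x => m x ∉ T ∪ I ∪ Q.biUnion id).card := by
    have hsub : ((T ∪ I).filter fun x => m x ∉ T ∪ I) ⊆
        ((Q.biUnion fun K => K.filter fun x => m x ∉ K).image m) ∪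
        ((T ∪ I ∪ Q.biUnion id).filter fun x => m x ∉ T ∪ I ∪ Q.biUnion id) := by
      intro x hx
      obtain ⟨hx1, hx2⟩ := mem_filter.mp hx
      rw [mem_union]
      by_cases hk : ∃ K ∈ Q, m x ∈ K
      · left
        obtain ⟨K, hK, hmx⟩ := hk
        refine mem_image.mpr ⟨m x, mem_biUnion.mpr ⟨K, hK, mem_filter.mpr ⟨hmx, ?_⟩⟩, hc.mm x⟩
        rw [hc.mm]
        intro hxK
        rcases mem_union.mp hx1 with h2 | h2
        · exact disjoint_left.mp (hpre.tK K hK) h2 hxK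
        · exact disjoint_left.mp (hpre.iK K hK) h2 hxK
      · right
        refine mem_filter.mpr ⟨mem_union.mpr (Or.inl hx1), ?_⟩
        intro hm
        rcases mem_union.mp hm with h2 | h2
        · exact hx2 h2
        · obtain ⟨K, hK, hmx⟩ := mem_biUnion.mp h2
          exact hk ⟨K, hK, hmx⟩
    have h2 := card_le_card hsub
    have h3 := card_union_le ((Q.biUnion fun K => K.filter fun x => m x ∉ K).image m)
      ((T ∪ I ∪ Q.biUnion id).filter fun x => m x ∉ T ∪ I ∪ Q.biUnion id)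
    have h4 : ((Q.biUnion fun K => K.filter fun x => m x ∉ K).image m).card ≤ ∑ K ∈ Q, dM m K :=
      le_trans card_image_le card_biUnion_le
    unfold dM at h4 ⊢
    omega
  have hW : Ws f = T ∪ I ∪ Q.biUnion id := by
    ext x
    simp only [Ws, mem_filter, mem_univ, true_and, mem_union, mem_biUnion, id]
    rw [← hf.fT, ← hf.fI, ← hf.fK]
    unfold isK
    cases f x <;> simp
  have hWc : (Ws f).card ≤ (T ∪ I).card + ∑ K ∈ Q, K.card := by
    rw [hW]
    exact le_trans (card_union_le _ _) (Nat.add_le_add_left card_biUnion_le _)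
  obtain ⟨s, hs⟩ : ∃ s, s = (Spc n f).card := ⟨_, rfl⟩
  obtain ⟨DM, hDM⟩ : ∃ d, d = ∑ K ∈ Q, dM m K := ⟨_, rfl⟩
  obtain ⟨DF, hDF⟩ : ∃ d, d = ∑ K ∈ Q, 2 * dF n K := ⟨_, rfl⟩
  obtain ⟨b, hb⟩ : ∃ b, b = (Bad m f).card := ⟨_, rfl⟩
  obtain ⟨F, hFd⟩ : ∃ F, F = (Full m T I Q).card := ⟨_, rfl⟩
  obtain ⟨p, hp⟩ : ∃ p, p = Q.card := ⟨_, rfl⟩
  obtain ⟨tm, htm⟩ : ∃ t, t = (T.filter fun x => m x ∈ T).card := ⟨_, rfl⟩
  obtain ⟨out, hout⟩ : ∃ t, t =
    ((T ∪ I ∪ Q.biUnion id).filter fun x => m x ∉ T ∪ I ∪ Q.biUnion id).card := ⟨_, rfl⟩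
  obtain ⟨SF, hSF⟩ : ∃ d, d = 2 * dF n (T ∪ I) := ⟨_, rfl⟩
  obtain ⟨SM, hSM⟩ : ∃ d, d = dM m (T ∪ I) := ⟨_, rfl⟩
  rw [← hs] at e1 e2 hS2
  rw [← hDF] at e2
  rw [← hDM, ← hFd, ← htm, ← hout] at e3
  rw [← hp] at e4
  rw [← hFd, ← hb] at hF
  rw [← hDF, ← hDM] at hs1
  rw [← hp] at hs2
  rw [← hSF] at hS2
  rw [← hSM, ← hDM, ← hout] at hS3
  rw [← hSF, ← hSM] at hS1
  have n1 : s + 2 ≤ 2 * p := by omega
  have n2 : DM + tm + out + 1 ≤ F + p := by omega
  have n3 : DF ≤ s := e2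
  have r1 : (s : ℝ) + 2 ≤ 2 * p := by exact_mod_cast n1
  have r2 : (DM : ℝ) + tm + out + 1 ≤ F + p := by exact_mod_cast n2
  have r3 : (DF : ℝ) ≤ s := by exact_mod_cast n3
  have r4 : (F : ℝ) ≤ 2 * b := by exact_mod_cast hF
  have r5 : (0 : ℝ) ≤ p := Nat.cast_nonneg _
  have r6 : (0 : ℝ) ≤ tm := Nat.cast_nonneg _
  have r7 : (0 : ℝ) ≤ s := Nat.cast_nonneg _
  have r9 : (0 : ℝ) ≤ DM := Nat.cast_nonneg _
  have r10 : (0 : ℝ) ≤ out := Nat.cast_nonneg _
  have r11 : (SF : ℝ) ≤ s := by exact_mod_cast hS2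
  have r12 : (SM : ℝ) ≤ DM + out := by exact_mod_cast hS3
  have r8 : (24 : ℝ) * p ≤ p * (h * g) := by
    rw [mul_comm]
    exact mul_le_mul_of_nonneg_left hg r5
  have q1 : ∑ K ∈ Q, h * (K.card : ℝ) ≤ F + 3 * p := by linarith
  have q2 : (21 : ℝ) * p ≤ F := by linarith
  have q3 : (p : ℝ) * (h * g) ≤ 8 / 7 * F := by linarith
  have q4 : (1 : ℝ) ≤ p := by linarith
  have q0 : (0 : ℝ) ≤ h * g := by linarith
  have q5 : h * ((T ∪ I).card : ℝ) ≤ F + 3 * p := by linarith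
  refine ⟨f, ⟨hadm, ?_, ?_, ?_, ?_⟩, hdis⟩
  · rw [hW]
    intro S hS hne hcl
    refine hloc.con S hS hne ?_
    intro x hx y hy hxy
    refine hcl x hx y hy ?_
    rcases hxy with h2 | h2 | h2
    · exact Or.inl h2
    · exact Or.inr (Or.inl h2)
    · exact Or.inr (Or.inr h2.1)
  · rw [← hb]
    have h2 : ((Ws f).card : ℝ) ≤ ((T ∪ I).card : ℝ) + ∑ K ∈ Q, (K.card : ℝ) := by
      exact_mod_cast hWc
    have h3 : h * ((Ws f).card : ℝ) ≤ h * ((T ∪ I).card : ℝ) + ∑ K ∈ Q, h * (K.card : ℝ) := by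
      rw [← Finset.mul_sum, ← mul_add]
      exact mul_le_mul_of_nonneg_left h2 h0.le
    linarith
  · rw [← hb, ← hs]
    have h2 : h * g * s ≤ 2 * (p * (h * g)) := by
      have : (h * g) * (s : ℝ) ≤ (h * g) * (2 * p) :=
        mul_le_mul_of_nonneg_left (by linarith) q0
      linarith
    linarith
  · rw [← hb]
    have h2 : h * g ≤ p * (h * g) := by
      have : (1 : ℝ) * (h * g) ≤ p * (h * g) := mul_le_mul_of_nonneg_right (by linarith) q0
      linarith
    linarith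

end Pool.Agent.Helper24.FR
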