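import Pool.Agent.Helper92.FR.GoalsB

/-!
# FR, packet VAL0: sums and products over the columns, scalar products
-/

namespace Pool.Agent.Helper24.FR

open Pool.Agent.Helper92.FR

theorem dot_val (x : List Qn) : ∀ (n : ℕ) (y : List Qn), x.length = n → y.length = n →
    Qn.val (dot x y) = ∑ i, lv n x i * lv n y i := by
  induction x with
  | nil =>
    intro n y hx hy
    simp only [List.length_nil] at hx
    subst hx
    simp [dot]
  | cons a x ih =>
    intro n y hx hy
    cases y with
    | nil =>
      simp only [List.length_nil] at hy
      subst hy
      simp at hx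
    | cons b y =>
      cases n with
      | zero => simp at hx
      | succ m =>
        have hx' : x.length = m := by simpa using hx
        have hy' : y.length = m := by simpa using hy
        have h := ih m y hx' hy'
        unfold dot at h ⊢
        rw [Qn.val_sum] at h ⊢
        rw [Fin.sum_univ_succ]
        simp only [List.zipWith_cons_cons, List.map_cons, List.sum_cons, Qn.val_mul]
        rw [h]
        simp [lv]

theorem map_eq_ofFn {β : Type} (l : List (List Qn)) (m : ℕ) (hl : l.length = m)
    (φ : List Qn → β) : l.map φ = List.ofFn (fun i : Fin m => φ (l.getD i [])) := by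
  apply List.ext_getElem
  · simp [hl]
  · intro i h1 h2
    have h3 : i < l.length := by simpa using h1
    simp [List.getD_eq_getElem, h3]

theorem slack_length (S : List Qn) : (slackCols S).length = S.length := by
  simp [slackCols]

theorem slack_getD (S : List Qn) (i : ℕ) (hi : i < S.length) :
    (slackCols S).getD i [] = (List.range S.length).map fun i' =>
      if i' = i then Qn.neg (S.getD i Qn.zero) else Qn.zero := by
  unfold slackCols
  rw [List.getD_eq_getElem _ _ (by simpa using hi)]
  simp

theorem val0 : Val0Stmt := by
  refine ⟨fun n x y hx hy => dot_val x n y hx hy, fun D => ⟨?_, ?_, ?_⟩⟩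
  · intro φ
    rw [cols, List.map_append, List.prod_append, Fintype.prod_sum_type,
      map_eq_ofFn D.1 D.1.length rfl φ,
      map_eq_ofFn (slackCols D.2.1) (nrow D) (slack_length _) φ, List.prod_ofFn, List.prod_ofFn]
    rfl
  · intro φ
    rw [cols, List.map_append, List.sum_append, Fintype.sum_sum_type,
      map_eq_ofFn D.1 D.1.length rfl φ,
      map_eq_ofFn (slackCols D.2.1) (nrow D) (slack_length _) φ, List.sum_ofFn, List.sum_ofFn]
    rfl
  · intro hD j
    cases j with
    | inl j =>
      refine ⟨?_, rfl⟩
      apply hD.1
      change D.1.getD j [] ∈ D.1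
      rw [List.getD_eq_getElem _ _ j.isLt]
      exact List.getElem_mem _
    | inr i =>
      have hi : (i : ℕ) < D.2.1.length := i.isLt
      have h1 : colL D (Sum.inr i) = (List.range D.2.1.length).map fun i' =>
          if i' = (i : ℕ) then Qn.neg (D.2.1.getD i Qn.zero) else Qn.zero :=
        slack_getD D.2.1 i hi
      refine ⟨?_, ?_⟩
      · rw [h1]
        simp [nrow]
      · funext i'
        have hi' : (i' : ℕ) < D.2.1.length := i'.isLt
        simp only [lv, h1, col, SR]
        rw [List.getD_eq_getElem _ _ (by simpa using hi')]
        simp only [List.getElem_map, List.getElem_range]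
        by_cases h : i' = i
        · subst h
          simp
        · have h' : ¬ ((i' : ℕ) = (i : ℕ)) := fun h2 => h (Fin.ext h2)
          rw [if_neg h', if_neg h, Qn.val_zero]

end Pool.Agent.Helper24.FR
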